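import Mathlib
import Pool.Graph.R_seed8.Y827.HN.Fin
import Pool.Graph.R_seed8.H318R2.Cr.Prod

/-! The Hardy-Littlewood mass of the tuples in an arbitrary set: counting over the residue classes. -/

set_option autoImplicit false

namespace Pool.Agent.H48.PM

open Finset Filter

/-- number of the residue classes modulo `p` occupied by the tuple -/
def nu {m : ℕ} (a : Fin m → ℕ) (p : ℕ) : ℕ := (univ.image (fun i => a i % p)).card

/-- local factor of the singular series -/
noncomputable def loc {m : ℕ} (a : Fin m → ℕ) (p : ℕ) : ℝ := (1 - (nu a p : ℝ) / p) / (1 - 1 / (p : ℝ)) ^ m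

/-- the primes `p ≤ z` not dividing `q` -/
def PP (q z : ℕ) : Finset ℕ := (range (z + 1)).filter (fun p => p.Prime ∧ ¬ p ∣ q)

theorem mem_PP {q z p : ℕ} : p ∈ PP q z ↔ p ≤ z ∧ p.Prime ∧ ¬ p ∣ q := by
  unfold PP
  rw [mem_filter, mem_range, Nat.lt_succ_iff]

/-- choices of one class modulo every prime -/
def Om (P : Finset ℕ) : Finset ((p : ↥P) → ℕ) := Fintype.piFinset (fun p : ↥P => range (p : ℕ))

/-- what remains of `A` -/
def AR {P : Finset ℕ} (A : Finset ℕ) (r : (p : ↥P) → ℕ) : Finset ℕ := A.filter (fun v => ∀ p : ↥P, v % (p : ℕ) ≠ r p)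

/-- all tuples of a set -/
def tup (m : ℕ) (A : Finset ℕ) : Finset (Fin m → ℕ) := Fintype.piFinset (fun _ => A)

theorem mem_tup {m : ℕ} {A : Finset ℕ} {a : Fin m → ℕ} : a ∈ tup m A ↔ ∀ i, a i ∈ A := by
  unfold tup
  rw [Fintype.mem_piFinset]

theorem card_tup (m : ℕ) (A : Finset ℕ) : (tup m A).card = A.card ^ m := by
  unfold tup
  rw [Fintype.card_piFinset]
  simp

theorem card_Om (P : Finset ℕ) : (Om P).card = ∏ p ∈ P, p := by
  unfold Om
  rw [Fintype.card_piFinset]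
  simp only [card_range]
  exact Finset.prod_coe_sort P (fun p => p)

theorem nu_le {m : ℕ} (a : Fin m → ℕ) {p : ℕ} (hp : 0 < p) : nu a p ≤ p := by
  unfold nu
  have h : (univ.image (fun i => a i % p)) ⊆ range p := by
    intro x hx
    obtain ⟨i, -, rfl⟩ := mem_image.1 hx
    exact mem_range.2 (Nat.mod_lt _ hp)
  simpa using card_le_card h

/-- the number of the choices which spare a tuple -/
theorem card_spare {m : ℕ} (P : Finset ℕ) (hP : ∀ p ∈ P, 0 < p) (A : Finset ℕ) {a : Fin m → ℕ} (ha : a ∈ tup m A) :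
    ((Om P).filter (fun r => a ∈ tup m (AR A r))).card = ∏ p ∈ P, (p - nu a p) := by
  have h1 : (Om P).filter (fun r => a ∈ tup m (AR A r)) =
      Fintype.piFinset (fun p : ↥P => range (p : ℕ) \ univ.image (fun i => a i % (p : ℕ))) := by
    ext r
    rw [mem_filter, Om, Fintype.mem_piFinset, Fintype.mem_piFinset, mem_tup]
    constructor
    · rintro ⟨h1, h2⟩ p
      rw [Finset.mem_sdiff]
      refine ⟨h1 p, fun hx => ?_⟩
      obtain ⟨i, -, hi⟩ := mem_image.1 hx
      exact (mem_filter.1 (h2 i)).2 p hi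
    · intro h
      refine ⟨fun p => (Finset.mem_sdiff.1 (h p)).1, fun i => mem_filter.2 ⟨mem_tup.1 ha i, fun p hp => ?_⟩⟩
      exact (Finset.mem_sdiff.1 (h p)).2 (mem_image.2 ⟨i, mem_univ _, hp⟩)
  rw [h1, Fintype.card_piFinset, ← Finset.prod_coe_sort P (fun p => p - nu a p)]
  refine Finset.prod_congr rfl fun p _ => ?_
  rw [card_sdiff_of_subset, card_range]
  · rfl
  · intro x hx
    obtain ⟨i, -, rfl⟩ := mem_image.1 hx
    exact mem_range.2 (Nat.mod_lt _ (hP p p.2))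

/-- truncated singular series -/
noncomputable def mass {m : ℕ} (q z : ℕ) (a : Fin m → ℕ) : ℝ := ∏ p ∈ PP q z, loc a p

theorem PP_pos {q z p : ℕ} (hp : p ∈ PP q z) : 0 < p := (mem_PP.1 hp).2.1.pos

theorem one_sub_pos {q z p : ℕ} (hp : p ∈ PP q z) : (0 : ℝ) < 1 - 1 / (p : ℝ) := by
  have h : (2 : ℝ) ≤ p := by exact_mod_cast (mem_PP.1 hp).2.1.two_le
  have h2 : 1 / (p : ℝ) ≤ 1 / 2 := one_div_le_one_div_of_le (by norm_num) h
  linarith

/-- the mass of a tuple is proportional to the number of the choices which spare it -/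
theorem mass_eq {m : ℕ} (q z : ℕ) (A : Finset ℕ) {a : Fin m → ℕ} (ha : a ∈ tup m A) :
    mass q z a * (∏ p ∈ PP q z, ((p : ℝ) * (1 - 1 / (p : ℝ)) ^ m)) =
      (((Om (PP q z)).filter (fun r => a ∈ tup m (AR A r))).card : ℝ) := by
  rw [card_spare _ (fun p hp => PP_pos hp) A ha, mass, ← Finset.prod_mul_distrib, Nat.cast_prod]
  refine Finset.prod_congr rfl fun p hp => ?_
  have hp0 : (0 : ℝ) < p := by exact_mod_cast PP_pos hp
  rw [Nat.cast_sub (nu_le a (PP_pos hp)), loc]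
  have h := (pow_pos (one_sub_pos hp) m).ne'
  generalize (1 - 1 / (p : ℝ)) ^ m = T at h
  field_simp

theorem mass_nonneg {m : ℕ} (q z : ℕ) (a : Fin m → ℕ) : 0 ≤ mass q z a := by
  refine Finset.prod_nonneg fun p hp => ?_
  have hp0 : (0 : ℝ) < p := by exact_mod_cast PP_pos hp
  refine div_nonneg ?_ (pow_nonneg (one_sub_pos hp).le m)
  have : (nu a p : ℝ) ≤ p := by exact_mod_cast nu_le a (PP_pos hp)
  rw [sub_nonneg, div_le_one hp0]
  exact this

/-- exchange of the order of summation -/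
theorem sum_spare {m : ℕ} (q z : ℕ) (A : Finset ℕ) (G : Finset (Fin m → ℕ)) (hG : G ⊆ tup m A) :
    ∑ r ∈ Om (PP q z), ((G.filter (fun a => a ∈ tup m (AR A r))).card : ℝ) =
      (∑ a ∈ G, mass q z a) * (∏ p ∈ PP q z, ((p : ℝ) * (1 - 1 / (p : ℝ)) ^ m)) := by
  rw [Finset.sum_mul]
  have h1 : ∀ a ∈ G, mass q z a * (∏ p ∈ PP q z, ((p : ℝ) * (1 - 1 / (p : ℝ)) ^ m)) =
      (((Om (PP q z)).filter (fun r => a ∈ tup m (AR A r))).card : ℝ) := fun a ha => mass_eq q z A (hG ha)
  rw [Finset.sum_congr rfl h1]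
  have h2 := Finset.sum_card_bipartiteAbove_eq_sum_card_bipartiteBelow (s := Om (PP q z)) (t := G)
    (fun (r : (p : ↥(PP q z)) → ℕ) (a : Fin m → ℕ) => a ∈ tup m (AR A r))
  unfold Finset.bipartiteAbove Finset.bipartiteBelow at h2
  exact_mod_cast h2

end Pool.Agent.H48.PM
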