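import Pool.Agent.H48.PM.A

/-! The Hardy-Littlewood mass of the tuples in an arbitrary set: the inequality at a finite level. -/

set_option autoImplicit false

namespace Pool.Agent.H48.PM

open Finset Filter

theorem AR_sub {P : Finset ℕ} (A : Finset ℕ) (r : (p : ↥P) → ℕ) : AR A r ⊆ A := filter_subset _ _

theorem tup_mono {m : ℕ} {A B : Finset ℕ} (h : A ⊆ B) : tup m A ⊆ tup m B := fun _ ha =>
  mem_tup.2 fun i => h (mem_tup.1 ha i)

theorem kk_pos {m : ℕ} (q z : ℕ) : 0 < ∏ p ∈ PP q z, ((p : ℝ) * (1 - 1 / (p : ℝ)) ^ m) :=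
  Finset.prod_pos fun _ hp => mul_pos (by exact_mod_cast PP_pos hp) (pow_pos (one_sub_pos hp) m)

theorem om_pos (q z : ℕ) : (0 : ℝ) < ((Om (PP q z)).card : ℝ) := by
  rw [card_Om, Nat.cast_prod]
  exact Finset.prod_pos fun _ hp => by exact_mod_cast PP_pos hp

/-- the mass of all tuples, as an average -/
theorem sum_all {m : ℕ} (q z : ℕ) (A : Finset ℕ) :
    ∑ r ∈ Om (PP q z), ((AR A r).card : ℝ) ^ m =
      (∑ a ∈ tup m A, mass q z a) * (∏ p ∈ PP q z, ((p : ℝ) * (1 - 1 / (p : ℝ)) ^ m)) := by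
  rw [← sum_spare q z A (tup m A) (subset_refl _)]
  refine Finset.sum_congr rfl fun r _ => ?_
  have h : (tup m A).filter (fun a => a ∈ tup m (AR A r)) = tup m (AR A r) := by
    ext a
    rw [mem_filter]
    exact ⟨fun h => h.2, fun h => ⟨tup_mono (AR_sub A r) h, h⟩⟩
  rw [h, card_tup, Nat.cast_pow]

theorem sum_one (q z : ℕ) (A : Finset ℕ) :
    ∑ r ∈ Om (PP q z), ((AR A r).card : ℝ) = A.card * (∏ p ∈ PP q z, ((p : ℝ) * (1 - 1 / (p : ℝ)))) := by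
  have h := sum_all (m := 1) q z A
  simp only [pow_one] at h
  rw [h]
  congr 1
  have h1 : ∀ a ∈ tup 1 A, mass q z a = 1 := by
    intro a _
    refine Finset.prod_eq_one fun p hp => ?_
    have h2 : nu a p = 1 := by
      unfold nu
      rw [Finset.univ_unique, Finset.image_singleton, card_singleton]
    rw [loc, h2, pow_one, Nat.cast_one, div_self (one_sub_pos hp).ne']
  rw [Finset.sum_congr rfl h1, Finset.sum_const, card_tup]
  simp

/-- the total mass is at least the number of the tuples -/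
theorem card_le_mass (k q z : ℕ) (A : Finset ℕ) : (A.card : ℝ) ^ (k + 1) ≤ ∑ a ∈ tup (k + 1) A, mass q z a := by
  have h1 := sum_all (m := k + 1) q z A
  have h2 := sum_one q z A
  have h3 := pow_sum_div_card_le_sum_pow (s := Om (PP q z)) (f := fun r => ((AR A r).card : ℝ))
    (fun _ _ => Nat.cast_nonneg _) k
  rw [h2, h1, div_le_iff₀ (pow_pos (om_pos q z) k)] at h3
  have h4 : ((Om (PP q z)).card : ℝ) = ∏ p ∈ PP q z, (p : ℝ) := by rw [card_Om, Nat.cast_prod]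
  have h5 : ∏ p ∈ PP q z, ((p : ℝ) * (1 - 1 / (p : ℝ)) ^ (k + 1)) =
      (∏ p ∈ PP q z, (p : ℝ)) * (∏ p ∈ PP q z, (1 - 1 / (p : ℝ))) ^ (k + 1) := by
    rw [Finset.prod_mul_distrib, Finset.prod_pow]
  have h6 : ∏ p ∈ PP q z, ((p : ℝ) * (1 - 1 / (p : ℝ))) =
      (∏ p ∈ PP q z, (p : ℝ)) * (∏ p ∈ PP q z, (1 - 1 / (p : ℝ))) := by
    rw [Finset.prod_mul_distrib]
  rw [h5, h6, h4] at h3
  have hX : (0 : ℝ) < ∏ p ∈ PP q z, (p : ℝ) := by rw [← h4]; exact om_pos q z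
  have hY : (0 : ℝ) < ∏ p ∈ PP q z, (1 - 1 / (p : ℝ)) := Finset.prod_pos fun _ hp => one_sub_pos hp
  generalize ∏ p ∈ PP q z, (p : ℝ) = X at *
  generalize ∏ p ∈ PP q z, (1 - 1 / (p : ℝ)) = Y at *
  have h7 : (X * Y) ^ (k + 1) * (A.card : ℝ) ^ (k + 1) ≤ (X * Y) ^ (k + 1) * ∑ a ∈ tup (k + 1) A, mass q z a := by
    calc (X * Y) ^ (k + 1) * (A.card : ℝ) ^ (k + 1) = (A.card * (X * Y)) ^ (k + 1) := by ring
      _ ≤ (∑ a ∈ tup (k + 1) A, mass q z a) * (X * Y ^ (k + 1)) * X ^ k := h3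
      _ = _ := by ring
  exact le_of_mul_le_mul_left h7 (by positivity)

/-- the inequality at a finite level -/
theorem main_z {m : ℕ} (q z n₀ : ℕ) (A : Finset ℕ) (c : ℝ) (hc0 : 0 ≤ c) (hc1 : c ≤ 1)
    (Gd : (Fin m → ℕ) → Prop) [DecidablePred Gd]
    (h : ∀ r ∈ Om (PP q z), n₀ ≤ (AR A r).card →
      c * ((AR A r).card : ℝ) ^ m ≤ (((tup m (AR A r)).filter Gd).card : ℝ)) :
    c * ∑ a ∈ tup m A, mass q z a - (n₀ : ℝ) ^ m * ∏ p ∈ PP q z, ((1 - 1 / (p : ℝ))⁻¹) ^ m ≤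
      ∑ a ∈ (tup m A).filter Gd, mass q z a := by
  have hK := kk_pos (m := m) q z
  have h1 : ∀ r ∈ Om (PP q z), c * ((AR A r).card : ℝ) ^ m - (n₀ : ℝ) ^ m ≤
      ((((tup m A).filter Gd).filter (fun a => a ∈ tup m (AR A r))).card : ℝ) := by
    intro r hr
    have e : ((tup m A).filter Gd).filter (fun a => a ∈ tup m (AR A r)) = (tup m (AR A r)).filter Gd := by
      ext a
      rw [mem_filter, mem_filter, mem_filter]
      exact ⟨fun h => ⟨h.2, h.1.2⟩, fun h => ⟨⟨tup_mono (AR_sub A r) h.1, h.2⟩, h.1⟩⟩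
    rw [e]
    by_cases hn : n₀ ≤ (AR A r).card
    · have := h r hr hn
      have h0 : (0 : ℝ) ≤ (n₀ : ℝ) ^ m := by positivity
      linarith
    · have h2 : ((AR A r).card : ℝ) ≤ n₀ := by exact_mod_cast (Nat.le_of_lt (not_le.1 hn))
      have h3 : ((AR A r).card : ℝ) ^ m ≤ (n₀ : ℝ) ^ m := pow_le_pow_left₀ (Nat.cast_nonneg _) h2 m
      have h4 : (0 : ℝ) ≤ ((AR A r).card : ℝ) ^ m := by positivity
      have h5 : (0 : ℝ) ≤ (((tup m (AR A r)).filter Gd).card : ℝ) := Nat.cast_nonneg _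
      nlinarith
  have h2 := Finset.sum_le_sum h1
  rw [sum_spare q z A _ (filter_subset _ _), Finset.sum_sub_distrib, ← Finset.mul_sum, sum_all, Finset.sum_const,
    nsmul_eq_mul] at h2
  have h3 : ((Om (PP q z)).card : ℝ) * (n₀ : ℝ) ^ m =
      ((n₀ : ℝ) ^ m * ∏ p ∈ PP q z, ((1 - 1 / (p : ℝ))⁻¹) ^ m) *
        ∏ p ∈ PP q z, ((p : ℝ) * (1 - 1 / (p : ℝ)) ^ m) := by
    rw [card_Om, Nat.cast_prod, mul_assoc, ← Finset.prod_mul_distrib, mul_comm]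
    congr 1
    refine Finset.prod_congr rfl fun p hp => ?_
    have := (pow_pos (one_sub_pos hp) m).ne'
    rw [inv_pow, mul_left_comm, inv_mul_cancel₀ this, mul_one]
  rw [h3] at h2
  have h4 : (c * ∑ a ∈ tup m A, mass q z a - (n₀ : ℝ) ^ m * ∏ p ∈ PP q z, ((1 - 1 / (p : ℝ))⁻¹) ^ m) *
      ∏ p ∈ PP q z, ((p : ℝ) * (1 - 1 / (p : ℝ)) ^ m) ≤
      (∑ a ∈ (tup m A).filter Gd, mass q z a) * ∏ p ∈ PP q z, ((p : ℝ) * (1 - 1 / (p : ℝ)) ^ m) := by
    refine le_trans (le_of_eq ?_) h2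
    ring
  exact le_of_mul_le_mul_right h4 hK

end Pool.Agent.H48.PM
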