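import Pool.Agent.H48.PM.B

/-! The Hardy-Littlewood mass of the tuples in an arbitrary set: the singular series. -/

set_option autoImplicit false

namespace Pool.Agent.H48.PM

open Finset Filter Topology

theorem pow_bds {x : ℝ} (h0 : 0 ≤ x) (h1 : x ≤ 1) (m : ℕ) :
    1 - m * x ≤ (1 - x) ^ m ∧ (1 - x) ^ m ≤ 1 - m * x + (m : ℝ) ^ 2 * x ^ 2 := by
  induction m with
  | zero => simp
  | succ m ih =>
    obtain ⟨ih1, ih2⟩ := ih
    have h2 : 0 ≤ 1 - x := by linarith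
    have hm : (0 : ℝ) ≤ m := Nat.cast_nonneg m
    push_cast
    rw [pow_succ]
    constructor
    · have := mul_le_mul_of_nonneg_right ih1 h2
      nlinarith [mul_nonneg hm (mul_nonneg h0 h0)]
    · have := mul_le_mul_of_nonneg_right ih2 h2
      nlinarith [mul_nonneg hm (mul_nonneg h0 h0), mul_nonneg (mul_nonneg hm hm) (mul_nonneg h0 (mul_nonneg h0 h0)),
        mul_nonneg h0 h0]

/-- local factor of a tuple without coincidences -/
noncomputable def tf (m p : ℕ) : ℝ := (1 - (m : ℝ) / p) / (1 - 1 / (p : ℝ)) ^ m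

theorem tf_bds {m p : ℕ} (hp : 2 ≤ p) (hm : m ≤ p) : 0 ≤ tf m p ∧ tf m p ≤ 1 := by
  have hp0 : (0 : ℝ) < p := by exact_mod_cast (by omega : 0 < p)
  have hp2 : (2 : ℝ) ≤ p := by exact_mod_cast hp
  have h2 : 1 / (p : ℝ) ≤ 1 / 2 := one_div_le_one_div_of_le (by norm_num) hp2
  have h3 : (0 : ℝ) ≤ 1 / (p : ℝ) := by positivity
  have h4 : (0 : ℝ) < (1 - 1 / (p : ℝ)) ^ m := pow_pos (by linarith) m
  have h5 := (pow_bds h3 (by linarith) m).1
  have h6 : (m : ℝ) / p ≤ 1 := by rw [div_le_one hp0]; exact_mod_cast hm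
  have h7 : (m : ℝ) * (1 / p) = m / p := by ring
  unfold tf
  constructor
  · exact div_nonneg (by linarith) h4.le
  · rw [div_le_one h4]
    linarith

theorem tf_lower {m p : ℕ} (hp : 2 ≤ p) (hm : 2 * m ≤ p) : 1 - tf m p ≤ 2 * (m : ℝ) ^ 2 * ((p : ℝ) ^ 2)⁻¹ := by
  have hp0 : (0 : ℝ) < p := by exact_mod_cast (by omega : 0 < p)
  have hp2 : (2 : ℝ) ≤ p := by exact_mod_cast hp
  have h2 : 1 / (p : ℝ) ≤ 1 / 2 := one_div_le_one_div_of_le (by norm_num) hp2
  have h3 : (0 : ℝ) ≤ 1 / (p : ℝ) := by positivity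
  have h4 : (0 : ℝ) < (1 - 1 / (p : ℝ)) ^ m := pow_pos (by linarith) m
  obtain ⟨h5, h6⟩ := pow_bds h3 (by linarith) m
  have h7 : (m : ℝ) * (1 / p) = m / p := by ring
  have h8 : (m : ℝ) / p ≤ 1 / 2 := by
    rw [div_le_iff₀ hp0]
    have : (2 : ℝ) * m ≤ p := by exact_mod_cast hm
    linarith
  have h9 : 1 - tf m p = ((1 - 1 / (p : ℝ)) ^ m - (1 - m / p)) / (1 - 1 / (p : ℝ)) ^ m := by
    unfold tf
    rw [eq_div_iff h4.ne', sub_mul, one_mul, div_mul_cancel₀ _ h4.ne']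
  rw [h9, div_le_iff₀ h4]
  have h10 : ((p : ℝ) ^ 2)⁻¹ = (1 / (p : ℝ)) ^ 2 := by rw [one_div, inv_pow]
  rw [h10]
  rw [h7] at h5 h6
  have h11 : 0 ≤ (m : ℝ) ^ 2 * (1 / (p : ℝ)) ^ 2 := by positivity
  nlinarith

theorem nu_inj {m M p : ℕ} {a : Fin m → ℕ} (ha : Function.Injective a) (hM : ∀ i, a i ≤ M) (hp : M < p) :
    nu a p = m := by
  unfold nu
  rw [card_image_of_injective, card_univ, Fintype.card_fin]
  intro i j hij
  apply ha
  have h1 : a i % p = a j % p := hij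
  rwa [Nat.mod_eq_of_lt ((hM i).trans_lt hp), Nat.mod_eq_of_lt ((hM j).trans_lt hp)] at h1

theorem loc_inj {m M p : ℕ} {a : Fin m → ℕ} (ha : Function.Injective a) (hM : ∀ i, a i ≤ M) (hp : M < p) :
    loc a p = tf m p := by
  unfold loc tf
  rw [nu_inj ha hM hp]

theorem le_of_inj {m M : ℕ} {a : Fin m → ℕ} (ha : Function.Injective a) (hM : ∀ i, a i ≤ M) : m ≤ M + 1 := by
  have h : (univ.image a) ⊆ range (M + 1) := by
    intro x hx
    obtain ⟨i, -, rfl⟩ := mem_image.1 hx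
    exact mem_range.2 (Nat.lt_succ_of_le (hM i))
  have := card_le_card h
  rwa [card_image_of_injective _ ha, card_univ, Fintype.card_fin, card_range] at this

/-- the factors of the large primes -/
noncomputable def tail (m q M z : ℕ) : ℝ := ∏ p ∈ PP q z \ PP q M, tf m p

theorem mem_tail {q M z p : ℕ} (hp : p ∈ PP q z \ PP q M) : M < p ∧ p ≤ z ∧ 2 ≤ p := by
  rw [Finset.mem_sdiff, mem_PP, mem_PP] at hp
  refine ⟨?_, hp.1.1, hp.1.2.1.two_le⟩
  by_contra h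
  exact hp.2 ⟨not_lt.1 h, hp.1.2⟩

theorem mass_tail {m q M z : ℕ} {a : Fin m → ℕ} (ha : Function.Injective a) (hM : ∀ i, a i ≤ M) (hz : M ≤ z) :
    mass q z a = mass q M a * tail m q M z := by
  unfold mass tail
  have hsub : PP q M ⊆ PP q z := by
    intro p hp
    rw [mem_PP] at hp ⊢
    exact ⟨hp.1.trans hz, hp.2⟩
  have h1 : ∏ p ∈ PP q z \ PP q M, tf m p = ∏ p ∈ PP q z \ PP q M, loc a p :=
    Finset.prod_congr rfl fun p hp => (loc_inj ha hM (mem_tail hp).1).symm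
  rw [h1, mul_comm, Finset.prod_sdiff hsub]

theorem tail_bds {m q M z : ℕ} (hm : m ≤ M + 1) : 0 ≤ tail m q M z ∧ tail m q M z ≤ 1 := by
  have h : ∀ p ∈ PP q z \ PP q M, 0 ≤ tf m p ∧ tf m p ≤ 1 := fun p hp => by
    obtain ⟨h1, -, h2⟩ := mem_tail hp
    exact tf_bds h2 (by omega)
  exact ⟨Finset.prod_nonneg fun p hp => (h p hp).1, Finset.prod_le_one (fun p hp => (h p hp).1) fun p hp => (h p hp).2⟩

theorem tail_lower {m q M z : ℕ} (hm : 2 * m ≤ M) (hM : 1 ≤ M) : 1 - 2 * (m : ℝ) ^ 2 / M ≤ tail m q M z := by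
  have h : ∀ p ∈ PP q z \ PP q M, 0 ≤ tf m p ∧ tf m p ≤ 1 := fun p hp => by
    obtain ⟨h1, -, h2⟩ := mem_tail hp
    exact tf_bds h2 (by omega)
  have h1 := Pool.Agent.Y827.LS.one_sub_sum_le_prod' (PP q z \ PP q M) (fun p => 1 - tf m p)
    (fun p hp => by have := h p hp; linarith [this.2]) (fun p hp => by have := h p hp; linarith [this.1])
  simp only [sub_sub_cancel] at h1
  refine le_trans ?_ h1
  have h2 : ∑ p ∈ PP q z \ PP q M, (1 - tf m p) ≤ ∑ p ∈ PP q z \ PP q M, 2 * (m : ℝ) ^ 2 * ((p : ℝ) ^ 2)⁻¹ :=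
    Finset.sum_le_sum fun p hp => by
      obtain ⟨h1, -, h2⟩ := mem_tail hp
      exact tf_lower h2 (by omega)
  have h3 : ∑ p ∈ PP q z \ PP q M, 2 * (m : ℝ) ^ 2 * ((p : ℝ) ^ 2)⁻¹ ≤
      ∑ p ∈ Ioc M (max M z), 2 * (m : ℝ) ^ 2 * ((p : ℝ) ^ 2)⁻¹ := by
    refine Finset.sum_le_sum_of_subset_of_nonneg ?_ fun p _ _ => by positivity
    intro p hp
    obtain ⟨h1, h2, -⟩ := mem_tail hp
    exact mem_Ioc.2 ⟨h1, h2.trans (le_max_right _ _)⟩
  have h4 := sum_Ioc_inv_sq_le_sub (α := ℝ) (k := M) (n := max M z) (by omega) (le_max_left _ _)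
  have h5 : (0 : ℝ) ≤ ((max M z : ℕ) : ℝ)⁻¹ := by positivity
  have h7 : ∑ p ∈ Ioc M (max M z), 2 * (m : ℝ) ^ 2 * ((p : ℝ) ^ 2)⁻¹ =
      2 * (m : ℝ) ^ 2 * ∑ p ∈ Ioc M (max M z), ((p : ℝ) ^ 2)⁻¹ := by rw [Finset.mul_sum]
  have h6 : 2 * (m : ℝ) ^ 2 * ∑ p ∈ Ioc M (max M z), ((p : ℝ) ^ 2)⁻¹ ≤ 2 * (m : ℝ) ^ 2 * (M : ℝ)⁻¹ :=
    mul_le_mul_of_nonneg_left (by linarith) (by positivity)
  rw [div_eq_mul_inv]
  linarith

/-- the singular series; the primes dividing `q` are left out -/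
noncomputable def sing {m : ℕ} (q : ℕ) (a : Fin m → ℕ) : ℝ :=
  ∏' p : Nat.Primes, if (p : ℕ) ∣ q then 1 else loc a p

theorem multipliable {m : ℕ} (q : ℕ) {a : Fin m → ℕ} (ha : Function.Injective a) :
    Multipliable (fun p : Nat.Primes => if (p : ℕ) ∣ q then (1 : ℝ) else loc a p) := by
  obtain ⟨M, hM⟩ : ∃ M, ∀ i, a i ≤ M := ⟨univ.sup a, fun i => Finset.le_sup (mem_univ i)⟩
  have h1 : (fun p : Nat.Primes => if (p : ℕ) ∣ q then (1 : ℝ) else loc a p) =
      fun p : Nat.Primes => 1 + ((if (p : ℕ) ∣ q then (1 : ℝ) else loc a p) - 1) := by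
    ext p; ring
  rw [h1]
  apply Real.multipliable_one_add_of_summable
  have hs : Summable (fun p : Nat.Primes => 2 * (m : ℝ) ^ 2 * (((p : ℕ) : ℝ) ^ 2)⁻¹) := by
    apply Summable.mul_left
    have h2 : Summable (fun n : ℕ => ((n : ℝ) ^ 2)⁻¹) := Real.summable_nat_pow_inv.2 (by norm_num)
    exact h2.comp_injective Subtype.val_injective
  refine Summable.of_norm_bounded_eventually hs ?_
  have hfin : {p : Nat.Primes | (p : ℕ) ≤ M + 2 * m}.Finite := by
    apply Set.Finite.of_finite_image (f := fun p : Nat.Primes => (p : ℕ))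
    · apply (Set.finite_le_nat (M + 2 * m)).subset
      rintro x ⟨p, hp, rfl⟩
      exact hp
    · exact Subtype.val_injective.injOn
  have h3 := hfin.compl_mem_cofinite
  filter_upwards [h3] with p hp
  have hp' : M + 2 * m < (p : ℕ) := by
    by_contra h
    exact hp (not_lt.1 h)
  split_ifs with hd
  · simp only [sub_self, norm_zero]
    positivity
  · rw [loc_inj ha hM (by omega), Real.norm_eq_abs, abs_sub_comm, abs_of_nonneg]
    · exact tf_lower p.2.two_le (by omega)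
    · have := (tf_bds (m := m) p.2.two_le (by omega)).2
      linarith

theorem tendsto_mass {m : ℕ} (q : ℕ) {a : Fin m → ℕ} (ha : Function.Injective a) :
    Tendsto (fun z => mass q z a) atTop (𝓝 (sing q a)) := by
  have h1 := (multipliable q ha).hasProd
  have h2 : Tendsto (fun z : ℕ => (range (z + 1)).subtype Nat.Prime) atTop (atTop : Filter (Finset Nat.Primes)) := by
    apply tendsto_atTop_finset_of_monotone
    · intro x y hxy p hp
      rw [Finset.mem_subtype, mem_range] at hp ⊢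
      omega
    · intro p
      exact ⟨p, by rw [Finset.mem_subtype, mem_range]; omega⟩
  have h3 := h1.comp h2
  refine h3.congr fun z => ?_
  show ∏ p ∈ (range (z + 1)).subtype Nat.Prime, (if ((p : Nat.Primes) : ℕ) ∣ q then (1 : ℝ) else loc a p) = _
  have h4 := Finset.prod_subtype_eq_prod_filter (s := range (z + 1)) (p := Nat.Prime)
    (fun p : ℕ => if p ∣ q then (1 : ℝ) else loc a p)
  refine h4.trans ?_
  unfold mass PP
  rw [← Finset.filter_filter, Finset.prod_filter (p := fun p => ¬ p ∣ q)]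
  refine Finset.prod_congr rfl fun p _ => ?_
  by_cases hd : p ∣ q
  · simp [hd]
  · simp [hd]

end Pool.Agent.H48.PM
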