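import Pool.Agent.H48.PM.C

/-! The Hardy-Littlewood mass of the tuples in an arbitrary set: conclusion. -/

set_option autoImplicit false

namespace Pool.Agent.H48.PM

open Finset Filter Topology
open Pool.Agent.Y827.HN (cntP finP)

/-- the pattern property at the height `N` -/
def Pat {k : ℕ} (A : Finset ℕ) (q b l R B N : ℕ) (a : Fin (k + 1) → ℕ) : Prop :=
  ∀ J : Finset (Fin (k + 1)), ∃ d : ℕ, 1 ≤ d ∧ (d : ℝ) ≤ (Real.log N) ^ B ∧
    (N : ℝ) / (Real.log N) ^ B ≤ (cntP A a J q b R l d N : ℝ)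

theorem cntP_mono {k : ℕ} {V A : Finset ℕ} (hVA : V ⊆ A) (a : Fin (k + 1) → ℕ) (J : Finset (Fin (k + 1)))
    (q b : ℕ) {R R' l l' : ℕ} (hR : R ≤ R') (hl : l ≤ l') (d N : ℕ) :
    cntP V a J q b R' l' d N ≤ cntP A a J q b R l d N := by
  classical
  unfold cntP
  apply card_le_card
  intro n hn
  rw [mem_filter] at hn ⊢
  refine ⟨hn.1, fun j hj => ?_⟩
  obtain ⟨h1, h2, h3⟩ := hn.2 j (by omega)
  refine ⟨h1, h2, fun x hx hx1 hx2 => ?_⟩
  obtain ⟨v, hv, hv2⟩ := h3 x hx (by omega) (by omega)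
  exact ⟨v, hVA hv, hv2⟩

theorem Pat_mono {k : ℕ} {V A : Finset ℕ} (hVA : V ⊆ A) {q b : ℕ} {R R' l l' B B' N : ℕ} (hR : R ≤ R')
    (hl : l ≤ l') (hB : B' ≤ B) (hN : 1 ≤ Real.log N) {a : Fin (k + 1) → ℕ} (h : Pat V q b l' R' B' N a) :
    Pat A q b l R B N a := by
  intro J
  obtain ⟨d, hd, h1, h2⟩ := h J
  have h3 : Real.log N ^ B' ≤ Real.log N ^ B := pow_le_pow_right₀ hN hB
  refine ⟨d, hd, h1.trans h3, le_trans ?_ (h2.trans ?_)⟩
  · exact div_le_div_of_nonneg_left (Nat.cast_nonneg _) (pow_pos (by linarith) _) h3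
  · exact_mod_cast cntP_mono hVA a J q b hR hl d N

/-- the proportion: `1 / 3` for pairs, `(5 / 18) ^ k` for `(k + 1)`-tuples -/
noncomputable def prp (k : ℕ) : ℝ := if k = 1 then 1 / 3 else (5 / 18) ^ k

theorem prp_pos (k : ℕ) : 0 < prp k := by
  unfold prp
  split_ifs <;> positivity

theorem prp_le (k : ℕ) : prp k ≤ 1 := by
  unfold prp
  split_ifs
  · norm_num
  · exact pow_le_one₀ (by norm_num) (by norm_num)

theorem log_ev : ∀ᶠ N : ℕ in atTop, 1 ≤ Real.log N :=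
  (Real.tendsto_log_atTop.comp tendsto_natCast_atTop_atTop).eventually_ge_atTop 1

theorem Winv_le : ∃ C₁ : ℝ, 0 ≤ C₁ ∧ ∀ q z : ℕ, 2 ≤ z → ∏ p ∈ PP q z, ((1 - 1 / (p : ℝ))⁻¹) ≤ C₁ * Real.log z := by
  obtain ⟨c₁, c₂, hc, -, h⟩ := Pool.Agent.H318R2.Cr.cz_bounds
  refine ⟨c₁⁻¹, by positivity, fun q z hz => ?_⟩
  have h1 := (h z hz).1
  have hV := Pool.Agent.H318R2.Cr.V_pos z
  have hlog : 0 < Real.log z := Real.log_pos (by exact_mod_cast (by omega : 1 < z))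
  have h2 : ∏ p ∈ PP q z, ((1 - 1 / (p : ℝ))⁻¹) ≤ ∏ p ∈ Pool.Agent.H318R2.Cr.Pz z, ((1 - 1 / (p : ℝ))⁻¹) := by
    apply Finset.prod_le_prod_of_subset_of_one_le
    · intro p hp
      rw [Pool.Agent.H318R2.Cr.mem_Pz]
      exact ⟨(mem_PP.1 hp).2.1, (mem_PP.1 hp).1⟩
    · intro p hp
      exact inv_nonneg.2 (one_sub_pos hp).le
    · intro p hp _
      have h3 := Pool.Agent.H318R2.Cr.one_sub_inv_pos (Pool.Agent.H318R2.Cr.mem_Pz.1 hp).1
      rw [one_le_inv₀ h3]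
      have : (0 : ℝ) ≤ 1 / p := by positivity
      linarith
  have h4 : ∏ p ∈ Pool.Agent.H318R2.Cr.Pz z, ((1 - 1 / (p : ℝ))⁻¹) = (Pool.Agent.H318R2.Cr.V z)⁻¹ := by
    rw [Finset.prod_inv_distrib]
    rfl
  rw [h4] at h2
  refine h2.trans ?_
  rw [inv_mul_eq_div, le_div_iff₀ hc, inv_mul_le_iff₀ hV]
  exact h1

/-- the inequality satisfied by the good family -/
def Ineq {k : ℕ} (ε C : ℝ) (q M : ℕ) (A : Finset ℕ) (G : Finset (Fin (k + 1) → ℕ)) : Prop :=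
  (prp k - ε) * max ((A.card : ℝ) ^ (k + 1)) (∑ a ∈ (tup (k + 1) A).filter Function.Injective, sing q a) -
    C * (Real.log M) ^ (k + 1) ≤ ∑ a ∈ G, sing q a

theorem sing_nonneg {m : ℕ} (q : ℕ) {a : Fin m → ℕ} (ha : Function.Injective a) : 0 ≤ sing q a :=
  ge_of_tendsto' (tendsto_mass q ha) fun z => mass_nonneg q z a

/-- at every large height -/
theorem everyN (k : ℕ) (ε : ℝ) (hε : 0 < ε) : ∃ C : ℝ, 0 ≤ C ∧ ∀ (q b M : ℕ) (A : Finset ℕ), 0 < q → 2 ≤ M →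
    (∀ v ∈ A, v ≤ M ∧ Nat.Coprime (b + v) q) → ∀ l R : ℕ, ∃ B : ℕ, ∀ᶠ N : ℕ in atTop,
      ∃ G ⊆ (tup (k + 1) A).filter Function.Injective, Ineq ε C q M A G ∧ ∀ a ∈ G, Pat A q b l R B N a := by
  classical
  -- a smaller epsilon
  obtain ⟨ε₁, hε₁, hε₂, hε₃⟩ : ∃ ε₁ : ℝ, 0 < ε₁ ∧ ε₁ ≤ ε / 2 ∧ ε₁ ≤ prp k / 2 :=
    ⟨min (ε / 2) (prp k / 2), lt_min (by linarith) (by have := prp_pos k; linarith), min_le_left _ _, min_le_right _ _⟩
  have hp0 := prp_pos k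
  have hp1 := prp_le k
  obtain ⟨z, n₀, H⟩ := finP k ε₁ hε₁
  obtain ⟨C₁, hC₁, hW⟩ := Winv_le
  obtain ⟨z₁, hz₁⟩ : ∃ z₁ : ℕ, 2 * ((k + 1 : ℕ) : ℝ) ^ 2 / ε₁ ≤ z₁ := exists_nat_ge _
  set z₂ := max z (max z₁ (2 * (k + 1))) with hz₂
  have hz₂z : z ≤ z₂ := le_max_left _ _
  have hz₂1 : z₁ ≤ z₂ := (le_max_left _ _).trans (le_max_right _ _)
  have hz₂2 : 2 * (k + 1) ≤ z₂ := (le_max_right _ _).trans (le_max_right _ _)
  set C := (n₀ : ℝ) ^ (k + 1) * (C₁ * (1 + Real.log z₂ / Real.log 2)) ^ (k + 1) with hC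
  have hl2 : 0 < Real.log 2 := Real.log_pos (by norm_num)
  have hlz : 0 ≤ Real.log z₂ := Real.log_natCast_nonneg _
  have hC0 : 0 ≤ C := by positivity
  refine ⟨C, hC0, fun q b M A hq hM hA l R => ?_⟩
  set c := prp k - ε₁ with hc
  have hc0 : 0 ≤ c := by linarith
  have hc1 : c ≤ 1 := by linarith
  -- the level
  set y := max M z₂ with hy
  have hyM : M ≤ y := le_max_left _ _
  have hyz : z₂ ≤ y := le_max_right _ _
  have hy2 : 2 ≤ y := hM.trans hyM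
  -- the classes
  have hdn : Pool.Agent.Y827.LS.dn k = prp k := rfl
  have h1 : ∀ r : (p : ↥(PP q y)) → ℕ, ∃ Br : ℕ, r ∈ Om (PP q y) → n₀ ≤ (AR A r).card → ∀ᶠ N : ℕ in atTop,
      ∃ G : Finset (Fin (k + 1) → ℕ), (∀ a ∈ G, (∀ i, a i ∈ AR A r) ∧ Function.Injective a) ∧
        c * ((AR A r).card : ℝ) ^ (k + 1) ≤ (G.card : ℝ) ∧ ∀ a ∈ G, Pat (AR A r) q b l R Br N a := by
    intro r
    by_cases hn : r ∈ Om (PP q y) ∧ n₀ ≤ (AR A r).card
    · obtain ⟨hrO, hn⟩ := hn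
      obtain ⟨-, h2⟩ := H q b (AR A r) hq (fun v hv => (hA v (AR_sub A r hv)).2) (fun p hpz hp hpq => by
        have hmem : p ∈ PP q y := mem_PP.2 ⟨by omega, hp, hpq⟩
        refine ⟨r ⟨p, hmem⟩, fun v hv hcon => ?_⟩
        have h3 := (mem_filter.1 hv).2 ⟨p, hmem⟩
        have hr : r ⟨p, hmem⟩ < p := mem_range.1 (Fintype.mem_piFinset.1 hrO ⟨p, hmem⟩)
        apply h3
        have h4 : v % p = r ⟨p, hmem⟩ % p := hcon
        rw [Nat.mod_eq_of_lt hr] at h4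
        exact h4) hn
      obtain ⟨Br, hBr⟩ := h2 l R
      exact ⟨Br, fun _ _ => hBr⟩
    · exact ⟨0, fun h h' => absurd ⟨h, h'⟩ hn⟩
  choose Br hBr using h1
  refine ⟨(Om (PP q y)).sup Br, ?_⟩
  have h2 : ∀ᶠ N : ℕ in atTop, ∀ r ∈ Om (PP q y), n₀ ≤ (AR A r).card →
      ∃ G : Finset (Fin (k + 1) → ℕ), (∀ a ∈ G, (∀ i, a i ∈ AR A r) ∧ Function.Injective a) ∧
        c * ((AR A r).card : ℝ) ^ (k + 1) ≤ (G.card : ℝ) ∧ ∀ a ∈ G, Pat (AR A r) q b l R (Br r) N a := by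
    rw [Filter.eventually_all_finset]
    intro r hr
    by_cases hn : n₀ ≤ (AR A r).card
    · filter_upwards [hBr r hr hn] with N hN _
      exact hN
    · exact Filter.Eventually.of_forall fun N h => absurd h hn
  filter_upwards [h2, log_ev] with N hN hlogN
  set B := (Om (PP q y)).sup Br with hB
  set Gd : (Fin (k + 1) → ℕ) → Prop := fun a => Function.Injective a ∧ Pat A q b l R B N a with hGd
  have hmain := main_z (m := k + 1) q y n₀ A c hc0 hc1 Gd (fun r hr hn => by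
    obtain ⟨G, hG1, hG2, hG3⟩ := hN r hr hn
    refine hG2.trans ?_
    have hsub : G ⊆ (tup (k + 1) (AR A r)).filter Gd := by
      intro a ha
      rw [mem_filter, mem_tup]
      exact ⟨(hG1 a ha).1, (hG1 a ha).2,
        Pat_mono (AR_sub A r) le_rfl le_rfl (Finset.le_sup hr) hlogN (hG3 a ha)⟩
    exact_mod_cast card_le_card hsub)
  set G := (tup (k + 1) A).filter Gd with hGdef
  have hGinj : ∀ a ∈ G, Function.Injective a := fun a ha => (mem_filter.1 ha).2.1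
  have hGM : ∀ a ∈ tup (k + 1) A, ∀ i, a i ≤ y := fun a ha i => ((hA _ (mem_tup.1 ha i)).1).trans hyM
  refine ⟨G, ?_, ?_, fun a ha => (mem_filter.1 ha).2.2⟩
  · intro a ha
    exact mem_filter.2 ⟨(mem_filter.1 ha).1, hGinj a ha⟩
  -- the inequality
  set X := ∑ a ∈ tup (k + 1) A, mass q y a with hX
  set I := (tup (k + 1) A).filter Function.Injective with hI
  set E := (n₀ : ℝ) ^ (k + 1) * ∏ p ∈ PP q y, ((1 - 1 / (p : ℝ))⁻¹) ^ (k + 1) with hE
  have hE0 : 0 ≤ E := mul_nonneg (by positivity) (Finset.prod_nonneg fun p hp =>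
    pow_nonneg (inv_nonneg.2 (one_sub_pos hp).le) _)
  have hlM : 0 < Real.log M := Real.log_pos (by exact_mod_cast (by omega : 1 < M))
  have hEC : E ≤ C * (Real.log M) ^ (k + 1) := by
    have hCe : C * (Real.log M) ^ (k + 1) =
        (n₀ : ℝ) ^ (k + 1) * (C₁ * (1 + Real.log z₂ / Real.log 2) * Real.log M) ^ (k + 1) := by
      rw [hC, mul_assoc, ← mul_pow]
    rw [hCe, hE, Finset.prod_pow]
    have hWn : (0 : ℝ) ≤ ∏ p ∈ PP q y, ((1 - 1 / (p : ℝ))⁻¹) :=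
      Finset.prod_nonneg fun p hp => inv_nonneg.2 (one_sub_pos hp).le
    have hn0 : (0 : ℝ) ≤ (n₀ : ℝ) ^ (k + 1) := by positivity
    refine mul_le_mul_of_nonneg_left ?_ hn0
    refine pow_le_pow_left₀ hWn ?_ _
    refine (hW q y hy2).trans ?_
    rw [mul_assoc]
    refine mul_le_mul_of_nonneg_left ?_ hC₁
    have h3 : (y : ℝ) ≤ M * z₂ := by
      rcases le_total M z₂ with h | h
      · rw [hy, max_eq_right h]
        have : (1 : ℝ) ≤ M := by exact_mod_cast (by omega : 1 ≤ M)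
        nlinarith [(Nat.cast_nonneg z₂ : (0 : ℝ) ≤ z₂)]
      · rw [hy, max_eq_left h]
        have : (1 : ℝ) ≤ z₂ := by exact_mod_cast (by omega : 1 ≤ z₂)
        nlinarith [(Nat.cast_nonneg M : (0 : ℝ) ≤ M)]
    have hM0 : (0 : ℝ) < M := by exact_mod_cast (by omega : 0 < M)
    have hz0 : (0 : ℝ) < z₂ := by exact_mod_cast (by omega : 0 < z₂)
    have hy0 : (0 : ℝ) < y := by exact_mod_cast (by omega : 0 < y)
    have h4 : Real.log y ≤ Real.log M + Real.log z₂ := by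
      rw [← Real.log_mul hM0.ne' hz0.ne']
      exact Real.log_le_log hy0 h3
    refine h4.trans ?_
    rw [add_mul, one_mul]
    have h5 : Real.log z₂ ≤ Real.log z₂ / Real.log 2 * Real.log M := by
      rw [div_mul_eq_mul_div, le_div_iff₀ hl2]
      refine mul_le_mul_of_nonneg_left ?_ hlz
      exact Real.log_le_log (by norm_num) (by exact_mod_cast hM)
    linarith
  have hX1 : (A.card : ℝ) ^ (k + 1) ≤ X := card_le_mass k q y A
  have hX2 : ∑ a ∈ I, mass q y a ≤ X :=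
    Finset.sum_le_sum_of_subset_of_nonneg (filter_subset _ _) fun a _ _ => mass_nonneg q y a
  have hX0 : 0 ≤ X := le_trans (by positivity) hX1
  have htl : ∀ z', y ≤ z' → 1 - ε₁ ≤ tail (k + 1) q y z' ∧ tail (k + 1) q y z' ≤ 1 := by
    intro z' hz'
    refine ⟨?_, (tail_bds (by omega)).2⟩
    have h3 := tail_lower (m := k + 1) (q := q) (M := y) (z := z') (by omega) (by omega)
    refine le_trans ?_ h3
    have hz1 : 2 * ((k + 1 : ℕ) : ℝ) ^ 2 / ε₁ ≤ y := hz₁.trans (by exact_mod_cast (by omega : z₁ ≤ y))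
    have hy0 : (0 : ℝ) < y := by exact_mod_cast (by omega : 0 < y)
    have h4 : 2 * ((k + 1 : ℕ) : ℝ) ^ 2 / y ≤ ε₁ := by
      rw [div_le_iff₀ hy0]
      rw [div_le_iff₀ hε₁] at hz1
      linarith
    linarith
  have hsumG : ∀ z', y ≤ z' → c * tail (k + 1) q y z' * X - E ≤ ∑ a ∈ G, mass q z' a := by
    intro z' hz'
    obtain ⟨t1, t2⟩ := htl z' hz'
    have ht0 : 0 ≤ tail (k + 1) q y z' := (tail_bds (by omega)).1
    have h3 : ∑ a ∈ G, mass q z' a = tail (k + 1) q y z' * ∑ a ∈ G, mass q y a := by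
      rw [Finset.mul_sum]
      refine Finset.sum_congr rfl fun a ha => ?_
      rw [mass_tail (hGinj a ha) (hGM a (mem_filter.1 ha).1) hz', mul_comm]
    rw [h3]
    have h4 := mul_le_mul_of_nonneg_left hmain ht0
    have h5 : tail (k + 1) q y z' * E ≤ E := mul_le_of_le_one_left hE0 t2
    nlinarith
  have hlimG : Tendsto (fun z' => ∑ a ∈ G, mass q z' a) atTop (𝓝 (∑ a ∈ G, sing q a)) :=
    tendsto_finsetSum _ fun a ha => tendsto_mass q (hGinj a ha)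
  have hlimI : Tendsto (fun z' => ∑ a ∈ I, mass q z' a) atTop (𝓝 (∑ a ∈ I, sing q a)) :=
    tendsto_finsetSum _ fun a ha => tendsto_mass q (mem_filter.1 ha).2
  have hA0 : (0 : ℝ) ≤ (A.card : ℝ) ^ (k + 1) := by positivity
  have key1 : (prp k - ε) * (A.card : ℝ) ^ (k + 1) - C * (Real.log M) ^ (k + 1) ≤ ∑ a ∈ G, sing q a := by
    apply ge_of_tendsto hlimG
    filter_upwards [eventually_ge_atTop y] with z' hz'
    refine le_trans ?_ (hsumG z' hz')
    obtain ⟨t1, t2⟩ := htl z' hz'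
    have h3 : (1 - ε₁) * X ≤ tail (k + 1) q y z' * X := mul_le_mul_of_nonneg_right t1 hX0
    have h4 : c * ((1 - ε₁) * X) ≤ c * (tail (k + 1) q y z' * X) := mul_le_mul_of_nonneg_left h3 hc0
    have h5 : (prp k - ε) * (A.card : ℝ) ^ (k + 1) ≤ c * ((1 - ε₁) * X) := by
      have h6 : (prp k - ε) ≤ c * (1 - ε₁) := by nlinarith
      have h7 : 0 ≤ c * (1 - ε₁) := mul_nonneg hc0 (by linarith)
      calc (prp k - ε) * (A.card : ℝ) ^ (k + 1) ≤ c * (1 - ε₁) * (A.card : ℝ) ^ (k + 1) :=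
            mul_le_mul_of_nonneg_right h6 hA0
        _ ≤ c * (1 - ε₁) * X := mul_le_mul_of_nonneg_left hX1 h7
        _ = _ := by ring
    linarith
  have key2 : (prp k - ε) * (∑ a ∈ I, sing q a) - C * (Real.log M) ^ (k + 1) ≤ ∑ a ∈ G, sing q a := by
    have hI0 : 0 ≤ ∑ a ∈ I, sing q a := Finset.sum_nonneg fun a ha => sing_nonneg q (mem_filter.1 ha).2
    have h3 : c * (∑ a ∈ I, sing q a) - E ≤ ∑ a ∈ G, sing q a := by
      refine le_of_tendsto_of_tendsto ((hlimI.const_mul c).sub_const E) hlimG ?_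
      filter_upwards [eventually_ge_atTop y] with z' hz'
      refine le_trans ?_ (hsumG z' hz')
      have ht0 : 0 ≤ tail (k + 1) q y z' := (tail_bds (by omega)).1
      have h4 : ∑ a ∈ I, mass q z' a = tail (k + 1) q y z' * ∑ a ∈ I, mass q y a := by
        rw [Finset.mul_sum]
        refine Finset.sum_congr rfl fun a ha => ?_
        rw [mass_tail (mem_filter.1 ha).2 (hGM a (mem_filter.1 ha).1) hz', mul_comm]
      rw [h4]
      have h5 := mul_le_mul_of_nonneg_left hX2 (mul_nonneg hc0 ht0)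
      nlinarith
    have h6 : (prp k - ε) * (∑ a ∈ I, sing q a) ≤ c * (∑ a ∈ I, sing q a) :=
      mul_le_mul_of_nonneg_right (by linarith) hI0
    linarith
  unfold Ineq
  rcases max_choice ((A.card : ℝ) ^ (k + 1)) (∑ a ∈ (tup (k + 1) A).filter Function.Injective, sing q a) with h | h
  · rw [h]; exact key1
  · rw [h]; exact key2

/-- one family -/
theorem oneG (k : ℕ) (ε C : ℝ) (q b M : ℕ) (A : Finset ℕ)
    (h : ∀ l R : ℕ, ∃ B : ℕ, ∀ᶠ N : ℕ in atTop,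
      ∃ G ⊆ (tup (k + 1) A).filter Function.Injective, Ineq ε C q M A G ∧ ∀ a ∈ G, Pat A q b l R B N a) :
    ∃ G ⊆ (tup (k + 1) A).filter Function.Injective, Ineq ε C q M A G ∧
      ∀ l R : ℕ, ∃ B : ℕ, ∃ᶠ N : ℕ in atTop, ∀ a ∈ G, Pat A q b l R B N a := by
  classical
  -- for one pair of parameters
  have h1 : ∀ m : ℕ, ∃ G : Finset (Fin (k + 1) → ℕ), G ⊆ (tup (k + 1) A).filter Function.Injective ∧
      Ineq ε C q M A G ∧ ∃ B : ℕ, ∃ᶠ N : ℕ in atTop, ∀ a ∈ G, Pat A q b m m B N a := by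
    intro m
    obtain ⟨B, hB⟩ := h m m
    by_contra hcon
    push Not at hcon
    have h2 : ∀ G ∈ ((tup (k + 1) A).filter Function.Injective).powerset, ∀ᶠ N : ℕ in atTop,
        ¬ (Ineq ε C q M A G ∧ ∀ a ∈ G, Pat A q b m m B N a) := by
      intro G hG
      by_cases hI : Ineq ε C q M A G
      · have h3 := hcon G (mem_powerset.1 hG) hI B
        filter_upwards [h3] with N hN h4
        obtain ⟨a, ha, ha2⟩ := hN
        exact ha2 (h4.2 a ha)
      · exact Filter.Eventually.of_forall fun N h4 => hI h4.1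
    rw [← Filter.eventually_all_finset] at h2
    obtain ⟨N, hN1, G, hG, hN2⟩ := (h2.and hB).exists
    exact hN1 G (mem_powerset.2 hG) hN2
  choose Gm hG1 hG2 Bm hBm using h1
  obtain ⟨G, hG⟩ : ∃ G, ∃ᶠ m : ℕ in atTop, Gm m = G := by
    by_contra hcon
    push Not at hcon
    have h2 : ∀ G ∈ ((tup (k + 1) A).filter Function.Injective).powerset, ∀ᶠ m : ℕ in atTop, Gm m ≠ G := by
      intro G _
      exact hcon G
    rw [← Filter.eventually_all_finset] at h2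
    obtain ⟨m, hm⟩ := h2.exists
    exact hm (Gm m) (mem_powerset.2 (hG1 m)) rfl
  obtain ⟨m₀, hm₀⟩ := hG.exists
  refine ⟨G, hm₀ ▸ hG1 m₀, hm₀ ▸ hG2 m₀, fun l R => ?_⟩
  obtain ⟨m, hm, hml⟩ := (hG.and_eventually (eventually_ge_atTop (max l R))).exists
  refine ⟨Bm m, ?_⟩
  have h3 := (hBm m).and_eventually log_ev
  refine h3.mono fun N hN a ha => ?_
  exact Pat_mono (subset_refl _) ((le_max_right _ _).trans hml) ((le_max_left _ _).trans hml) le_rfl hN.2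
    (hN.1 a (by rw [hm]; exact ha))

end Pool.Agent.H48.PM
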